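import Pool.Agent.W203.BE.Stms

/-!
# Bochner-Riesz over ellipsoids: part L4B
-/

set_option autoImplicit false

open MeasureTheory Set Complex
open scoped ENNReal ComplexConjugate

namespace Pool.Agent.W616.BE

open Pool.Agent.W203.BE

lemma g1_conj (α : ℂ) (hα : 0 < α.re) (x : ℝ) : g1 (conj α) x = conj (g1 α x) := by
  unfold g1
  have h1 : ((Real.pi : ℂ) / conj α) = conj ((Real.pi : ℂ) / α) := by
    rw [map_div₀, Complex.conj_ofReal]
  have h2 : ((Real.pi : ℂ) / α).arg ≠ Real.pi := by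
    have hre : 0 < ((Real.pi : ℂ) / α).re := by
      rw [Complex.div_re]
      have h3 : 0 < Complex.normSq α := by
        rw [Complex.normSq_pos]
        intro h
        rw [h] at hα
        simp at hα
      simp only [Complex.ofReal_re, Complex.ofReal_im, zero_mul, zero_div, add_zero]
      exact div_pos (mul_pos Real.pi_pos hα) h3
    intro h
    rw [Complex.arg_eq_pi_iff] at h
    linarith [h.1]
  have h3 : ((Real.pi : ℂ) / conj α) ^ (1 / 2 : ℂ) = conj (((Real.pi : ℂ) / α) ^ (1 / 2 : ℂ)) := by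
    rw [h1]
    have h4 : (1 / 2 : ℂ) = conj (1 / 2 : ℂ) := by
      have h5 : (1 / 2 : ℂ) = ((1 / 2 : ℝ) : ℂ) := by push_cast; ring
      rw [h5, Complex.conj_ofReal]
    rw [Complex.conj_cpow _ _ h2]
    rw [← h4]
  rw [h3, map_mul]
  congr 1
  rw [← Complex.exp_conj]
  congr 1
  rw [map_mul, map_neg, map_div₀, map_pow, map_pow, Complex.conj_ofReal, Complex.conj_ofReal]

lemma T1_conj (α : ℂ) (hα : 0 < α.re) (g : ℝ → ℂ) (x : ℝ) :
    T1 (conj α) (fun y => conj (g y)) x = conj (T1 α g x) := by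
  unfold T1
  rw [← integral_conj]
  congr 1
  funext y
  rw [g1_conj α hα, map_mul]

/-- bounded kernel -/
lemma g1_bdd (hB : S_BAS) (α : ℂ) (hα : 0 < α.re) : ∃ C : ℝ, ∀ x, ‖g1 α x‖ ≤ C := by
  obtain ⟨-, -, h, -⟩ := hB α hα
  refine ⟨Real.sqrt (Real.pi / ‖α‖), fun x => ?_⟩
  rw [h x]
  have h1 : Real.exp (-(Real.pi ^ 2 * α.re / ‖α‖ ^ 2 * x ^ 2)) ≤ 1 := by
    rw [Real.exp_le_one_iff]
    have : 0 ≤ Real.pi ^ 2 * α.re / ‖α‖ ^ 2 * x ^ 2 := by positivity
    linarith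
  calc _ ≤ Real.sqrt (Real.pi / ‖α‖) * 1 := by gcongr
    _ = _ := mul_one _

lemma T1_meas (hB : S_BAS) (α : ℂ) (hα : 0 < α.re) (g : ℝ → ℂ) (hg : Measurable g) :
    Measurable (T1 α g) := by
  obtain ⟨hc, -⟩ := hB α hα
  have h1 : Measurable (Function.uncurry (fun x y : ℝ => g1 α (x - y) * g y)) := by
    have : Measurable (fun q : ℝ × ℝ => g1 α (q.1 - q.2) * g q.2) :=
      (hc.measurable.comp (measurable_fst.sub measurable_snd)).mul (hg.comp measurable_snd)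
    exact this
  exact (h1.stronglyMeasurable.integral_prod_right (ν := volume)).measurable

/-- the semigroup property -/
lemma T1_semi (hB : S_BAS) (γ β : ℂ) (hγ : 0 < γ.re) (hβ : 0 < β.re) (g : ℝ → ℂ)
    (hgi : Integrable g) (x : ℝ) :
    T1 (γ + β) g x = T1 γ (T1 β g) x := by
  obtain ⟨hcγ, hiγ, -, -, -, -, hconv⟩ := hB γ hγ
  obtain ⟨hcβ, hiβ, -⟩ := hB β hβ
  obtain ⟨M, hM⟩ := g1_bdd hB γ hγ
  have hint : Integrable (Function.uncurry (fun y z : ℝ => g1 γ (x - y) * (g1 β (y - z) * g z)))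
      (volume.prod volume) := by
    have h1 : Integrable (fun q : ℝ × ℝ => g q.2 * g1 β (q.1 - q.2)) (volume.prod volume) :=
      hgi.convolution_integrand (ContinuousLinearMap.mul ℝ ℂ) hiβ
    have h2 : Integrable (fun q : ℝ × ℝ => g1 γ (x - q.1) * (g q.2 * g1 β (q.1 - q.2)))
        (volume.prod volume) := by
      refine h1.bdd_mul (c := M) ?_ ?_
      · exact (hcγ.comp (continuous_const.sub continuous_fst)).aestronglyMeasurable
      · exact Filter.Eventually.of_forall (fun q => hM _)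
    refine h2.congr (Filter.Eventually.of_forall (fun q => ?_))
    simp only [Function.uncurry]
    ring
  calc T1 (γ + β) g x = ∫ z, g1 (γ + β) (x - z) * g z := rfl
    _ = ∫ z, ∫ y, g1 γ (x - y) * (g1 β (y - z) * g z) := by
        congr 1
        funext z
        have h1 := hconv β hβ (x - z)
        rw [← h1]
        rw [← integral_mul_const]
        rw [← integral_sub_right_eq_self (fun y => g1 γ (x - z - y) * g1 β y * g z) z]
        congr 1
        funext y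
        rw [show x - z - (y - z) = x - y by ring]
        ring
    _ = ∫ y, ∫ z, g1 γ (x - y) * (g1 β (y - z) * g z) := (integral_integral_swap hint).symm
    _ = T1 γ (T1 β g) x := by
        unfold T1
        congr 1
        funext y
        rw [integral_const_mul]

/-- pointwise comparison -/
lemma comp (hB : S_BAS) (hY : S_YNG) (g : ℝ → ℂ) (hg : Measurable g) (hgi : Integrable g)
    (T r w a : ℝ) (hr : 0 < r) (hw : 0 < w)
    (h1 : w / (2 * (r ^ 2 + w ^ 2)) = a * T)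
    (h2 : Real.pi * (r / (r ^ 2 + w ^ 2)) < a - 1 / 2) :
    ∫⁻ x, ‖T1 (al 1 a T) g x‖ₑ ^ 4 ≤
      ∫⁻ x, ‖T1 ((Real.pi : ℂ) / (⟨r, -w⟩ : ℂ)) g x‖ₑ ^ 4 := by
  have hrw : 0 < r ^ 2 + w ^ 2 := by positivity
  set β : ℂ := (Real.pi : ℂ) / (⟨r, -w⟩ : ℂ) with hβ
  set c : ℝ := a - 1 / 2 - Real.pi * (r / (r ^ 2 + w ^ 2)) with hc
  have hcpos : 0 < c := by
    rw [hc]
    linarith
  have hβre : β.re = Real.pi * (r / (r ^ 2 + w ^ 2)) := by
    rw [hβ, Complex.div_re]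
    simp only [Complex.ofReal_re, Complex.ofReal_im, zero_mul, zero_div, add_zero,
      Complex.normSq_mk]
    rw [mul_div_assoc]
    congr 2
    ring
  have hβim : β.im = 2 * Real.pi * (a * T) := by
    rw [hβ, Complex.div_im, ← h1]
    simp only [Complex.ofReal_re, Complex.ofReal_im, zero_mul, zero_div,
      Complex.normSq_mk]
    have : r * r + -w * -w = r ^ 2 + w ^ 2 := by ring
    rw [this]
    field_simp
    ring
  have hβpos : 0 < β.re := by
    rw [hβre]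
    positivity
  have hsum : al 1 a T = (c : ℂ) + β := by
    apply Complex.ext
    · rw [Complex.add_re, hβre, Complex.ofReal_re]
      simp only [al]
      rw [hc]
      ring
    · rw [Complex.add_im, hβim, Complex.ofReal_im]
      simp only [al]
      ring
  have hre : 0 < ((c : ℂ)).re := by
    rw [Complex.ofReal_re]
    exact hcpos
  have heq : ∀ x, T1 (al 1 a T) g x = T1 (c : ℂ) (T1 β g) x := by
    intro x
    rw [hsum]
    exact T1_semi hB c β hre hβpos g hgi x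
  have hy := hY (c : ℂ) hre (T1 β g) (T1_meas hB β hβpos g hg)
  have hone : (‖(c : ℂ)‖ / ((c : ℂ)).re) ^ 2 = 1 := by
    rw [Complex.norm_real, Complex.ofReal_re, Real.norm_eq_abs, abs_of_pos hcpos,
      div_self (ne_of_gt hcpos), one_pow]
  rw [hone, ENNReal.ofReal_one, one_mul] at hy
  calc _ = ∫⁻ x, ‖T1 (c : ℂ) (T1 β g) x‖ₑ ^ 4 := by
        congr 1
        funext x
        rw [heq x]
    _ ≤ _ := hy

/-- the derivative of `w / (2 (r^2 + w^2)) / T` -/
lemma der (T r w : ℝ) (hr : 0 < r) :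
    HasDerivAt (fun w : ℝ => w / (2 * (r ^ 2 + w ^ 2)) / T)
      ((r ^ 2 - w ^ 2) / (2 * (r ^ 2 + w ^ 2) ^ 2) / T) w := by
  have hne : 2 * (r ^ 2 + w ^ 2) ≠ 0 := by positivity
  have h1 : HasDerivAt (fun w : ℝ => 2 * (r ^ 2 + w ^ 2)) (2 * (2 * w)) w := by
    have h2 : HasDerivAt (fun w : ℝ => w ^ 2) (2 * w) w := by
      simpa using hasDerivAt_pow 2 w
    exact (h2.const_add (r ^ 2)).const_mul 2
  have h3 : HasDerivAt (fun w : ℝ => w / (2 * (r ^ 2 + w ^ 2)) / T)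
      ((1 * (2 * (r ^ 2 + w ^ 2)) - w * (2 * (2 * w))) / (2 * (r ^ 2 + w ^ 2)) ^ 2 / T) w :=
    ((hasDerivAt_id w).div h1 hne).div_const T
  refine h3.congr_deriv ?_
  congr 1
  rw [div_eq_div_iff (by positivity) (by positivity)]
  ring

/-- the case `s ≥ 1` -/
lemma pos_case (hB : S_BAS) (hY : S_YNG) (C : ℝ) (hC : 0 < C)
    (hA : ∀ g : ℝ → ℂ, Measurable g → Integrable g →
      ∀ r w₀ : ℝ, 0 < r → r ≤ w₀ → w₀ ≤ 1 →
      ∫⁻ w in Icc w₀ (8 * w₀), ∫⁻ x, ‖T1 ((Real.pi : ℂ) / (⟨r, -w⟩ : ℂ)) g x‖ₑ ^ 4 ≤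
        ENNReal.ofReal (C * w₀ * (1 + Real.log (1 / r))) * ∫⁻ x, ‖g x‖ₑ ^ 4)
    (g : ℝ → ℂ) (hg : Measurable g) (hgi : Integrable g) (T : ℝ) (hT : 1 ≤ T) :
    ∫⁻ a in Icc (1 : ℝ) 2, ∫⁻ x, ‖T1 (al 1 a T) g x‖ₑ ^ 4 ≤
      ENNReal.ofReal (48 * C * (1 + Real.log T)) * ∫⁻ x, ‖g x‖ₑ ^ 4 := by
  have hT0 : 0 < T := by linarith
  obtain ⟨r, hr⟩ : ∃ r : ℝ, r = 1 / (128 * T ^ 2) := ⟨_, rfl⟩
  obtain ⟨w₀, hw₀⟩ : ∃ w₀ : ℝ, w₀ = 1 / (16 * T) := ⟨_, rfl⟩
  have hrpos : 0 < r := by rw [hr]; positivity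
  have hwpos : 0 < w₀ := by rw [hw₀]; positivity
  have hw1 : w₀ ≤ 1 := by
    rw [hw₀, div_le_one (by positivity)]
    linarith
  have hrw : 8 * r ≤ w₀ := by
    rw [hr, hw₀]
    rw [show 8 * (1 / (128 * T ^ 2)) = 1 / (16 * T ^ 2) by field_simp; norm_num]
    apply one_div_le_one_div_of_le (by positivity)
    nlinarith
  have hTw : T * w₀ = 1 / 16 := by
    rw [hw₀]
    field_simp
  have hTr : T ^ 2 * r = 1 / 128 := by
    rw [hr]
    field_simp
  obtain ⟨b, hb⟩ : ∃ b : ℝ → ℝ, b = fun w : ℝ => w / (2 * (r ^ 2 + w ^ 2)) / T := ⟨_, rfl⟩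
  have hder : ∀ w, HasDerivAt b ((r ^ 2 - w ^ 2) / (2 * (r ^ 2 + w ^ 2) ^ 2) / T) w := by
    intro w
    rw [hb]
    exact der T r w hrpos
  have hcont : Continuous b := continuous_iff_continuousAt.mpr (fun w => (hder w).continuousAt)
  set E : Set ℝ := Icc w₀ (8 * w₀) ∩ b ⁻¹' (Icc 1 2) with hE
  have hEm : MeasurableSet E := measurableSet_Icc.inter (hcont.measurable measurableSet_Icc)
  have hinj : InjOn b E := by
    intro w hw w' hw' h
    have h1 : w₀ ≤ w := hw.1.1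
    have h2 : w₀ ≤ w' := hw'.1.1
    rw [hb] at h
    simp only at h
    have h3 : w / (2 * (r ^ 2 + w ^ 2)) = w' / (2 * (r ^ 2 + w' ^ 2)) := by
      field_simp at h
      field_simp
      linarith
    rw [div_eq_div_iff (by positivity) (by positivity)] at h3
    have h4 : (w - w') * (r ^ 2 - w * w') = 0 := by nlinarith
    rcases mul_eq_zero.mp h4 with h5 | h5
    · linarith
    · exfalso
      have h6 : w₀ * w₀ ≤ w * w' := mul_le_mul h1 h2 hwpos.le (by linarith)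
      nlinarith
  have hsub : Icc (1 : ℝ) 2 ⊆ b '' E := by
    intro a ha
    have h1 : 2 ≤ b w₀ := by
      rw [hb]
      simp only
      rw [le_div_iff₀ hT0, le_div_iff₀ (by positivity)]
      have : r ^ 2 ≤ w₀ ^ 2 / 64 := by nlinarith
      have h5 : T * (w₀ * w₀) = 1 / 16 * w₀ := by rw [← mul_assoc, hTw]
      have h6 : T * r ^ 2 ≤ T * (w₀ ^ 2 / 64) := mul_le_mul_of_nonneg_left this hT0.le
      nlinarith
    have h2 : b (8 * w₀) ≤ 1 := by
      rw [hb]
      simp only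
      rw [div_le_one hT0, div_le_iff₀ (by positivity)]
      have h5 : T * (w₀ * w₀) = 1 / 16 * w₀ := by rw [← mul_assoc, hTw]
      have h6 : 0 ≤ T * r ^ 2 := by positivity
      nlinarith
    have h3 := intermediate_value_Icc' (by linarith : w₀ ≤ 8 * w₀) hcont.continuousOn
    obtain ⟨w, hw, hwa⟩ := h3 ⟨h2.trans ha.1, ha.2.trans h1⟩
    refine ⟨w, ⟨hw, ?_⟩, hwa⟩
    rw [mem_preimage, hwa]
    exact ha
  have hpt : ∀ w ∈ E, ∫⁻ x, ‖T1 (al 1 (b w) T) g x‖ₑ ^ 4 ≤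
      ∫⁻ x, ‖T1 ((Real.pi : ℂ) / (⟨r, -w⟩ : ℂ)) g x‖ₑ ^ 4 := by
    intro w hw
    have h1 : w₀ ≤ w := hw.1.1
    have hwp : 0 < w := by linarith
    have h2 : 1 ≤ b w := hw.2.1
    have h3 : b w ≤ 2 := hw.2.2
    have hbT : w / (2 * (r ^ 2 + w ^ 2)) = b w * T := by
      rw [hb]
      field_simp
    refine comp hB hY g hg hgi T r w (b w) hrpos hwp hbT ?_
    have h4 : w / (2 * (r ^ 2 + w ^ 2)) ≤ 2 * T := by
      rw [hbT]
      exact mul_le_mul_of_nonneg_right h3 hT0.le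
    rw [div_le_iff₀ (by positivity)] at h4
    have h5 : r ^ 2 ≤ w ^ 2 / 64 := by nlinarith
    -- `w ≤ (65/16) T w^2`
    have h6 : w ≤ 65 / 16 * T * w ^ 2 := by
      have : T * r ^ 2 ≤ T * (w ^ 2 / 64) := mul_le_mul_of_nonneg_left h5 hT0.le
      nlinarith
    have h7 : 16 / 65 ≤ T * w := by
      have : w * 1 ≤ w * (65 / 16 * (T * w)) := by nlinarith
      have := le_of_mul_le_mul_left this hwp
      linarith
    have h8 : r / (r ^ 2 + w ^ 2) ≤ 13 / 100 := by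
      rw [div_le_iff₀ (by positivity)]
      have h9 : 256 / 4225 ≤ T ^ 2 * w ^ 2 := by
        have : (16 / 65 : ℝ) * (16 / 65) ≤ (T * w) * (T * w) :=
          mul_le_mul h7 h7 (by norm_num) (by positivity)
        nlinarith
      have h10 : T ^ 2 * r ≤ T ^ 2 * (13 / 100 * (r ^ 2 + w ^ 2)) := by
        rw [hTr]
        have : 0 ≤ T ^ 2 * r ^ 2 := by positivity
        nlinarith
      exact le_of_mul_le_mul_left h10 (by positivity)
    have hpi : Real.pi * (r / (r ^ 2 + w ^ 2)) ≤ 3.15 * (13 / 100) := by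
      apply mul_le_mul Real.pi_lt_d2.le h8 (by positivity) (by norm_num)
    norm_num at hpi
    norm_num
    linarith
  have hd : ∀ w ∈ E, ENNReal.ofReal |(r ^ 2 - w ^ 2) / (2 * (r ^ 2 + w ^ 2) ^ 2) / T| ≤
      ENNReal.ofReal (128 * T) := by
    intro w hw
    have h1 : w₀ ≤ w := hw.1.1
    have hwp : 0 < w := by linarith
    apply ENNReal.ofReal_le_ofReal
    rw [abs_div, abs_of_pos hT0, div_le_iff₀ hT0, abs_div]
    rw [abs_of_pos (by positivity : (0 : ℝ) < 2 * (r ^ 2 + w ^ 2) ^ 2)]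
    rw [div_le_iff₀ (by positivity)]
    have h2 : |r ^ 2 - w ^ 2| ≤ r ^ 2 + w ^ 2 := by
      rw [abs_le]
      constructor <;> nlinarith [sq_nonneg r, sq_nonneg w]
    have h3 : w₀ ^ 2 ≤ r ^ 2 + w ^ 2 := by nlinarith [sq_nonneg r]
    have h4 : T ^ 2 * w₀ ^ 2 = 1 / 256 := by
      have : T ^ 2 * w₀ ^ 2 = (T * w₀) ^ 2 := by ring
      rw [this, hTw]
      norm_num
    have h5 : 1 / 256 ≤ T ^ 2 * (r ^ 2 + w ^ 2) := by
      rw [← h4]
      exact mul_le_mul_of_nonneg_left h3 (by positivity)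
    have h6 : 0 ≤ r ^ 2 + w ^ 2 := by positivity
    calc |r ^ 2 - w ^ 2| ≤ 1 * (r ^ 2 + w ^ 2) := by linarith
      _ ≤ (256 * (T ^ 2 * (r ^ 2 + w ^ 2))) * (r ^ 2 + w ^ 2) := by
          apply mul_le_mul_of_nonneg_right _ h6
          linarith
      _ = 128 * T * T * (2 * (r ^ 2 + w ^ 2) ^ 2) := by ring
  have hlog : 8 * C * (1 + Real.log (1 / r)) ≤ 48 * C * (1 + Real.log T) := by
    have h1 : 1 / r = 128 * T ^ 2 := by
      rw [hr]
      field_simp
    rw [h1, Real.log_mul (by norm_num) (by positivity), Real.log_pow]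
    have h2 : Real.log 128 ≤ 5 := by
      have : (128 : ℝ) = 2 ^ 7 := by norm_num
      rw [this, Real.log_pow]
      have := Real.log_two_lt_d9
      push_cast
      linarith
    have h3 : 0 ≤ Real.log T := Real.log_nonneg hT
    push_cast
    nlinarith
  calc ∫⁻ a in Icc (1 : ℝ) 2, ∫⁻ x, ‖T1 (al 1 a T) g x‖ₑ ^ 4
      ≤ ∫⁻ a in b '' E, ∫⁻ x, ‖T1 (al 1 a T) g x‖ₑ ^ 4 := lintegral_mono_set hsub
    _ = ∫⁻ w in E, ENNReal.ofReal |(r ^ 2 - w ^ 2) / (2 * (r ^ 2 + w ^ 2) ^ 2) / T| *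
          ∫⁻ x, ‖T1 (al 1 (b w) T) g x‖ₑ ^ 4 :=
        lintegral_image_eq_lintegral_abs_deriv_mul hEm
          (fun w _ => (hder w).hasDerivWithinAt) hinj _
    _ ≤ ∫⁻ w in E, ENNReal.ofReal (128 * T) *
          ∫⁻ x, ‖T1 ((Real.pi : ℂ) / (⟨r, -w⟩ : ℂ)) g x‖ₑ ^ 4 := by
        apply setLIntegral_mono' hEm
        intro w hw
        exact mul_le_mul' (hd w hw) (hpt w hw)
    _ ≤ ∫⁻ w in Icc w₀ (8 * w₀), ENNReal.ofReal (128 * T) *
          ∫⁻ x, ‖T1 ((Real.pi : ℂ) / (⟨r, -w⟩ : ℂ)) g x‖ₑ ^ 4 :=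
        lintegral_mono_set inter_subset_left
    _ = ENNReal.ofReal (128 * T) * ∫⁻ w in Icc w₀ (8 * w₀),
          ∫⁻ x, ‖T1 ((Real.pi : ℂ) / (⟨r, -w⟩ : ℂ)) g x‖ₑ ^ 4 :=
        lintegral_const_mul' _ _ ENNReal.ofReal_ne_top
    _ ≤ ENNReal.ofReal (128 * T) * (ENNReal.ofReal (C * w₀ * (1 + Real.log (1 / r))) *
          ∫⁻ x, ‖g x‖ₑ ^ 4) := by
        gcongr
        exact hA g hg hgi r w₀ hrpos (by linarith) hw1
    _ = ENNReal.ofReal (128 * T * (C * w₀ * (1 + Real.log (1 / r)))) *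
          ∫⁻ x, ‖g x‖ₑ ^ 4 := by
        rw [← mul_assoc, ← ENNReal.ofReal_mul (by positivity)]
    _ ≤ _ := by
        refine mul_le_mul' (ENNReal.ofReal_le_ofReal ?_) le_rfl
        calc 128 * T * (C * w₀ * (1 + Real.log (1 / r)))
            = 128 * C * (T * w₀) * (1 + Real.log (1 / r)) := by ring
          _ = 8 * C * (1 + Real.log (1 / r)) := by rw [hTw]; ring
          _ ≤ _ := hlog

theorem l4b : S_BAS → S_YNG → S_L4A → S_L4B := by
  intro hB hY ⟨C, hC, hA⟩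
  refine ⟨48 * C, by positivity, ?_⟩
  intro g hg hgi s hs
  rcases le_total 0 s with h0 | h0
  · rw [abs_of_nonneg h0] at hs ⊢
    exact pos_case hB hY C hC hA g hg hgi s hs
  · rw [abs_of_nonpos h0] at hs ⊢
    have h1 := pos_case hB hY C hC hA (fun y => conj (g y))
      (Complex.continuous_conj.measurable.comp hg) ?_ (-s) hs
    · have h2 : ∀ a ∈ Icc (1 : ℝ) 2, ∀ x, ‖T1 (al 1 a (-s)) (fun y => conj (g y)) x‖ₑ =
          ‖T1 (al 1 a s) g x‖ₑ := by
        intro a ha x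
        have h3 : al 1 a (-s) = conj (al 1 a s) := by
          apply Complex.ext
          · simp [al]
          · simp [al]
        rw [h3, T1_conj]
        · rw [← ofReal_norm, ← ofReal_norm, RCLike.norm_conj]
        · simp only [al]
          linarith [ha.1]
      have h4 : ∫⁻ a in Icc (1 : ℝ) 2, ∫⁻ x, ‖T1 (al 1 a s) g x‖ₑ ^ 4 =
          ∫⁻ a in Icc (1 : ℝ) 2, ∫⁻ x, ‖T1 (al 1 a (-s)) (fun y => conj (g y)) x‖ₑ ^ 4 := by
        apply setLIntegral_congr_fun measurableSet_Icc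
        intro a ha
        simp only
        congr 1
        funext x
        rw [h2 a ha x]
      rw [h4]
      have h5 : ∫⁻ x, ‖(fun y => conj (g y)) x‖ₑ ^ 4 = ∫⁻ x, ‖g x‖ₑ ^ 4 := by
        congr 1
        funext x
        simp only
        rw [← ofReal_norm, ← ofReal_norm, RCLike.norm_conj]
      rw [h5] at h1
      exact h1
    · exact hgi.norm.mono (Complex.continuous_conj.comp_aestronglyMeasurable
        hgi.aestronglyMeasurable) (Filter.Eventually.of_forall (fun x => by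
          rw [RCLike.norm_conj, norm_norm]))

end Pool.Agent.W616.BE
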